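import Pool.Agent.Singer.FinStmt
import Pool.Agent.Singer.PDStmt
import Pool.Agent.Singer.Racg
import Pool.Agent.Singer.Gen.MirStmt
import Pool.Agent.Npc.Stmt

/-!
# The classes `Van i` of groups without `ℓ²`-homology in degree `i`

* `InClass` : the smallest class of groups which contains the trivial groups and is closed under extensions with bi-orderable
  or amenable and locally indicable quotients, residually and under directed unions;
* `TreeAction` : cocompact actions on trees with stabilizers of type `FP_∞`;
* `CubeAction` : actions on `CAT(0)` cube complexes which are free and cocompact on the vertices;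
* `Van i` : the classes of groups.
-/

set_option autoImplicit false

namespace SQ.V

open Singer CubeComplex

/-- `G` has a linear order which is invariant under the left and the right multiplications -/
def BiOrderable (G : Type) [Group G] : Prop :=
  ∃ _ : LinearOrder G, (∀ a b d : G, a ≤ b → d * a ≤ d * b) ∧ ∀ a b d : G, a ≤ b → a * d ≤ b * d

open Classical in
/-- amenability, in the form of Foelner's condition: for every finite `S` and every `k` there is a finite nonempty `F` such
that, for every `s` in `S`, at most the `(k + 1)`-st part of the elements of `F` leaves `F` under the multiplication by `s` -/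
def Amenable (G : Type) [Group G] : Prop :=
  ∀ (S : Finset G) (k : ℕ), ∃ F : Finset G, F.Nonempty ∧
    ∀ s ∈ S, (k + 1) * (F.filter fun x => x * s ∉ F).card ≤ F.card

/-- every nontrivial finitely generated subgroup has a nontrivial homomorphism to the integers -/
def LocallyIndicable (G : Type) [Group G] : Prop :=
  ∀ S : Subgroup G, S.FG → S ≠ ⊥ → ∃ χ : S →* Multiplicative ℤ, ∃ s, χ s ≠ 1

/-- the smallest class of groups which contains the trivial groups and is closed under extensions with bi-orderable or
amenable locally indicable quotients, residually, and under directed unions -/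
inductive InClass : ∀ (G : Type) [Group G], Prop
  | trivial (G : Type) [Group G] : (∀ g : G, g = 1) → InClass G
  | ordered {G : Type} [Group G] (N : Subgroup G) [N.Normal] : InClass N → BiOrderable (G ⧸ N) → InClass G
  | amenable {G : Type} [Group G] (N : Subgroup G) [N.Normal] :
      InClass N → Amenable (G ⧸ N) → LocallyIndicable (G ⧸ N) → InClass G
  | residual {G : Type} [Group G] (Q : G → Type) [∀ g, Group (Q g)] (π : ∀ g, G →* Q g) :
      (∀ g, InClass (Q g)) → (∀ g, g ≠ 1 → π g g ≠ 1) → InClass G
  | union {G : Type} [Group G] : (∀ S : Subgroup G, S.FG → InClass S) → InClass G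

/-- `T` is a tree on which `Γ` acts without inversions, with finitely many orbits of edges, such that the stabilizers of the
vertices and the edges are of type `FP_∞`, and the finite set `F` of vertices meets all orbits -/
structure TreeAction (Γ : Type) [Group Γ] {V : Type} [MulAction Γ V] (T : SimpleGraph V) (F : Finset V) : Prop where
  tree : T.IsTree
  act : ∀ (g : Γ) (v w : V), T.Adj v w → T.Adj (g • v) (g • w)
  inv : ∀ (g : Γ) (v w : V), T.Adj v w → g • v = w → g • w ≠ v
  vert : ∀ v, ∃ x ∈ F, ∃ g : Γ, g • x = v
  edge : ∃ K : Finset V, ∀ v w, T.Adj v w → ∃ g : Γ, g • v ∈ K ∧ g • w ∈ K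
  finV : ∀ v : V, Nonempty (FinRes (MulAction.stabilizer Γ v))
  finE : ∀ v w, T.Adj v w → Nonempty (FinRes (MulAction.stabilizer Γ v ⊓ MulAction.stabilizer Γ w : Subgroup Γ))

/-- `M` is a locally finite median graph, i.e. the one-skeleton of a locally finite `CAT(0)` cube complex, on which `Γ` acts;
the action on the vertices is free and the finite set `F` of vertices meets all orbits -/
structure CubeAction (Γ : Type) [Group Γ] {X : Type} [MulAction Γ X] (M : SimpleGraph X) (F : Finset X) : Prop where
  median : IsMedian M
  fin : ∀ x, (M.neighborSet x).Finite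
  act : ∀ (g : Γ) (x y : X), M.Adj x y → M.Adj (g • x) (g • y)
  free : ∀ (g : Γ) (x : X), g • x = x → g = 1
  vert : ∀ x, ∃ f ∈ F, ∃ g : Γ, g • f = x

/-- The classes of groups; `Van i` consists of groups without `ℓ²`-homology in degree `i`.
* `sub`: subgroups `K` of type `FP_∞` of `n`-dimensional Poincare duality groups, `n < 2 * i`, if `K` is in `InClass`.
* `dim`: `Γ` has a resolution by finitely generated free modules which is zero in degree `i`.
* `zero`: infinite groups are in `Van 0`.
* `amen`: amenable groups of type `FP_∞` are in `Van i` for `i > 0`.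
* `supergroup`, `subgroup`: `Γ` contains a group of the class as a subgroup of finite index, or is a subgroup of finite index
  of a group of the class.
* `dual`: Poincare duality groups of dimension `i + j` in `Van i` are in `Van j`.
* `mirror`: `Γ` acts on a tree and the mirrored groups `MirrorGroup Γ T x` of all vertices are in the class.
* `tree`: `Γ` acts on a tree, the stabilizers of the vertices are in `Van i` and, if `i = j + 1`, the stabilizers of the
  edges are in `Van j`.
* `vertex`: `Γ` acts on a tree, `Γ` and the stabilizers of the edges are in the class, then so are the stabilizers of the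
  vertices.
* `edge`: `Γ` acts on a tree, `Γ` is in `Van (i + 1)` and the stabilizers of the vertices are in `Van i`, then the
  stabilizers of the edges are in `Van i`.
* `cube`: `Γ` acts on a `CAT(0)` cube complex, freely and cocompactly on the vertices, and the right-angled Coxeter groups
  of all links are in the class. -/
inductive Van : ℕ → ∀ (Γ : Type) [Group Γ], Prop
  | sub {n i : ℕ} {P : Type} [Group P] (K : Subgroup P) (R : FinRes K) : IsPD n P → InClass K → n < 2 * i → Van i K
  | dim {i : ℕ} {Γ : Type} [Group Γ] (R : FinRes Γ) : IsEmpty (R.ι i) → Van i Γ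
  | zero {Γ : Type} [Group Γ] : Infinite Γ → Van 0 Γ
  | amen {i : ℕ} {Γ : Type} [Group Γ] (R : FinRes Γ) : Amenable Γ → Van (i + 1) Γ
  | supergroup {i : ℕ} {Γ H : Type} [Group Γ] [Group H] (j : H →* Γ) :
      Function.Injective j → j.range.FiniteIndex → Van i H → Van i Γ
  | subgroup {i : ℕ} {Γ H : Type} [Group Γ] [Group H] (j : Γ →* H) (R : FinRes H) :
      Function.Injective j → j.range.FiniteIndex → Van i H → Van i Γ
  | dual {i j : ℕ} {Γ : Type} [Group Γ] : IsPD (i + j) Γ → Van i Γ → Van j Γ
  | mirror {i : ℕ} {Γ V : Type} [Group Γ] [MulAction Γ V] (T : SimpleGraph V) (F : Finset V) :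
      TreeAction Γ T F → (∀ x ∈ F, Van i (MirrorGroup Γ T x)) → Van i Γ
  | tree {i : ℕ} {Γ V : Type} [Group Γ] [MulAction Γ V] (T : SimpleGraph V) (F : Finset V) :
      TreeAction Γ T F → (∀ x ∈ F, Van i (MulAction.stabilizer Γ x)) →
      (∀ j, j + 1 = i → ∀ v w, T.Adj v w →
        Van j (MulAction.stabilizer Γ v ⊓ MulAction.stabilizer Γ w : Subgroup Γ)) → Van i Γ
  | vertex {i : ℕ} {Γ V : Type} [Group Γ] [MulAction Γ V] (T : SimpleGraph V) (F : Finset V) (v : V) :
      TreeAction Γ T F → Van i Γ →
      (∀ v w, T.Adj v w → Van i (MulAction.stabilizer Γ v ⊓ MulAction.stabilizer Γ w : Subgroup Γ)) →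
      Van i (MulAction.stabilizer Γ v)
  | edge {i : ℕ} {Γ V : Type} [Group Γ] [MulAction Γ V] (T : SimpleGraph V) (F : Finset V) (v w : V) :
      TreeAction Γ T F → Van (i + 1) Γ → (∀ x ∈ F, Van i (MulAction.stabilizer Γ x)) → T.Adj v w →
      Van i (MulAction.stabilizer Γ v ⊓ MulAction.stabilizer Γ w : Subgroup Γ)
  | cube {i : ℕ} {Γ X : Type} [Group Γ] [MulAction Γ X] (M : SimpleGraph X) (F : Finset X) :
      CubeAction Γ M F → (∀ x ∈ F, Van i (RACG (link M x))) → Van i Γ

end SQ.V
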