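import Pool.Agent.Singer.FinBetti
import Pool.Agent.SQ.V.Stmt

/-!
# Amenable groups have no `ℓ²`-homology in positive degrees

* `rs F` : the restriction of the elements of `ℓ²(Γ × ι)` to `F × ι`, `F` a finite set; `ex F` : the extension by zero;
* `sum_prj_le` : the partial trace of a projection is at most the dimension of the restricted subspace;
* `van_amen` : the theorem; the proof is that of Eckmann with Foelner sets.
-/

set_option autoImplicit false
set_option linter.unusedSectionVars false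
set_option linter.unusedVariables false

open scoped ComplexConjugate InnerProductSpace

namespace SQ.V

open Singer

section fin
variable {Γ : Type*} [Group Γ] {ι κ : Type*} [Fintype ι] [Fintype κ]

/-- restriction -/
noncomputable def rs (F : Finset Γ) : E Γ ι →ₗ[ℂ] EuclideanSpace ℂ (F × ι) where
  toFun f := WithLp.toLp 2 fun x => f (x.1.1, x.2)
  map_add' f g := by
    ext x
    rfl
  map_smul' c f := by
    ext x
    rfl

lemma rs_apply (F : Finset Γ) (f : E Γ ι) (x : F × ι) : rs F f x = f (x.1.1, x.2) := rfl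

/-- extension by zero -/
noncomputable def ex (F : Finset Γ) : EuclideanSpace ℂ (F × ι) →ₗ[ℂ] E Γ ι where
  toFun c := ∑ x : F × ι, c x • del x.1.1 x.2
  map_add' c d := by
    rw [← Finset.sum_add_distrib]
    refine Finset.sum_congr rfl fun x _ => ?_
    rw [← add_smul]
    rfl
  map_smul' a c := by
    rw [Finset.smul_sum]
    refine Finset.sum_congr rfl fun x _ => ?_
    rw [smul_smul]
    rfl

lemma ex_eq (F : Finset Γ) (c : EuclideanSpace ℂ (F × ι)) : ex F c = ∑ x : F × ι, c x • del x.1.1 x.2 := rfl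

lemma inner_ex (F : Finset Γ) (c : EuclideanSpace ℂ (F × ι)) (h : E Γ ι) : ⟪ex F c, h⟫_ℂ = ⟪c, rs F h⟫_ℂ := by
  rw [ex_eq, sum_inner, PiLp.inner_apply]
  refine Finset.sum_congr rfl fun x _ => ?_
  rw [inner_smul_left, inner_del_left, RCLike.inner_apply, mul_comm]
  rfl

lemma fs_ex (F : Finset Γ) (c : EuclideanSpace ℂ (F × ι)) : FS (ex F c) :=
  FS.sum fun x _ => (fs_del _ _).smul _

lemma ex_mem (F : Finset Γ) (c : EuclideanSpace ℂ (F × ι)) {g : Γ} (hg : g ∈ F) (j : ι) :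
    ex F c (g, j) = c (⟨g, hg⟩, j) := by
  classical
  rw [ex_eq, lp.coeFn_sum, Finset.sum_apply, Finset.sum_eq_single (⟨g, hg⟩, j)]
  · rw [lp.coeFn_smul, Pi.smul_apply, del_apply_self, smul_eq_mul, mul_one]
  · intro x _ hx
    rw [lp.coeFn_smul, Pi.smul_apply, del_apply_ne, smul_zero]
    rintro h
    refine hx (Prod.ext (Subtype.ext ?_) ?_)
    · exact (congrArg Prod.fst h).symm
    · exact (congrArg Prod.snd h).symm
  · intro h
    exact absurd (Finset.mem_univ _) h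

lemma ex_notMem (F : Finset Γ) (c : EuclideanSpace ℂ (F × ι)) {g : Γ} (hg : g ∉ F) (j : ι) : ex F c (g, j) = 0 := by
  rw [ex_eq, lp.coeFn_sum, Finset.sum_apply]
  refine Finset.sum_eq_zero fun x _ => ?_
  rw [lp.coeFn_smul, Pi.smul_apply, del_apply_ne, smul_zero]
  intro h
  have h1 : g = x.1.1 := congrArg Prod.fst h
  exact hg (h1 ▸ x.1.2)

lemma rs_ex (F : Finset Γ) (c : EuclideanSpace ℂ (F × ι)) : rs F (ex F c) = c := by
  ext x
  rw [rs_apply, ex_mem F c x.1.2]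

lemma norm_rs_le (F : Finset Γ) (f : E Γ ι) : ‖rs F f‖ ≤ ‖f‖ := by
  have h1 : ‖ex F (rs F f)‖ = ‖rs F f‖ := by
    have h2 : ⟪ex F (rs F f), ex F (rs F f)⟫_ℂ = ⟪rs F f, rs F f⟫_ℂ := by rw [inner_ex, rs_ex]
    rw [inner_self_eq_norm_sq_to_K, inner_self_eq_norm_sq_to_K] at h2
    have h3 : ‖ex F (rs F f)‖ ^ 2 = ‖rs F f‖ ^ 2 := by exact_mod_cast h2
    exact (pow_left_inj₀ (norm_nonneg _) (norm_nonneg _) two_ne_zero).1 h3
  have h4 : ‖rs F f‖ ^ 2 ≤ ‖rs F f‖ * ‖f‖ := by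
    have h5 : ⟪ex F (rs F f), f⟫_ℂ = ((‖rs F f‖ : ℂ)) ^ 2 := by
      rw [inner_ex, inner_self_eq_norm_sq_to_K]
      rfl
    have h6 := norm_inner_le_norm (𝕜 := ℂ) (ex F (rs F f)) f
    rw [h5, h1, norm_pow, Complex.norm_real, norm_norm] at h6
    exact h6
  rcases eq_or_lt_of_le (norm_nonneg (rs F f)) with h0 | h0
  · rw [← h0]
    exact norm_nonneg _
  · nlinarith

/-- the partial trace of a projection is at most the dimension of the restricted subspace -/
theorem sum_prj_le {H : Submodule ℂ (E Γ ι)} (hcl : IsClosed (H : Set (E Γ ι))) (F : Finset Γ) :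
    ∑ x : F × ι, ‖prj H (del x.1.1 x.2)‖ ^ 2 ≤ (Module.finrank ℂ (H.map (rs F)) : ℝ) := by
  classical
  obtain ⟨V, hV⟩ : ∃ V : Submodule ℂ (EuclideanSpace ℂ (F × ι)), V = H.map (rs F) := ⟨_, rfl⟩
  rw [← hV]
  let b := stdOrthonormalBasis ℂ V
  -- the projections of the standard basis
  have hq : ∀ x : F × ι, ‖prj H (del x.1.1 x.2)‖ ^ 2 ≤ ∑ k, ‖⟪((b k : V) : EuclideanSpace ℂ (F × ι)),
      EuclideanSpace.single x (1 : ℂ)⟫_ℂ‖ ^ 2 := by
    intro x
    obtain ⟨p, hp⟩ : ∃ p, p = prj H (del x.1.1 x.2 : E Γ ι) := ⟨_, rfl⟩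
    rw [← hp]
    have hpH : p ∈ H := by
      have h1 := prj_mem H (del x.1.1 x.2 : E Γ ι)
      rw [hcl.submodule_topologicalClosure_eq] at h1
      rwa [hp]
    have hpp : prj H p = p := prj_eq_of_mem (H.le_topologicalClosure hpH)
    have h1 : ⟪EuclideanSpace.single x (1 : ℂ), rs F p⟫_ℂ = ((‖p‖ : ℂ)) ^ 2 := by
      have h2 : ⟪(del x.1.1 x.2 : E Γ ι), p⟫_ℂ = ((‖p‖ : ℂ)) ^ 2 := by
        rw [← hpp, ← prj_inner, hpp, ← hp, inner_self_eq_norm_sq_to_K]
        rfl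
      rw [← h2, inner_del_left, EuclideanSpace.inner_single_left, map_one, one_mul]
      rfl
    have hmem : rs F p ∈ V := by
      rw [hV]
      exact ⟨p, hpH, rfl⟩
    obtain ⟨Q, hQ⟩ : ∃ Q : V, Q = V.orthogonalProjectionOnto (EuclideanSpace.single x (1 : ℂ)) := ⟨_, rfl⟩
    have h3 : ⟪Q, (⟨rs F p, hmem⟩ : V)⟫_ℂ = ((‖p‖ : ℂ)) ^ 2 := by
      rw [← h1, hQ]
      exact Submodule.inner_orthogonalProjectionOnto_eq_of_mem_right ⟨rs F p, hmem⟩ _
    have h4 : ‖p‖ ^ 2 ≤ ‖Q‖ * ‖p‖ := by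
      have h5 := norm_inner_le_norm (𝕜 := ℂ) Q (⟨rs F p, hmem⟩ : V)
      rw [h3, norm_pow, Complex.norm_real, norm_norm] at h5
      refine h5.trans (mul_le_mul_of_nonneg_left ?_ (norm_nonneg _))
      exact norm_rs_le F p
    have h6 : ‖p‖ ≤ ‖Q‖ := by
      rcases eq_or_lt_of_le (norm_nonneg p) with h0 | h0
      · rw [← h0]
        exact norm_nonneg _
      · nlinarith
    have h7 : ‖p‖ ^ 2 ≤ ‖Q‖ ^ 2 := by gcongr
    refine h7.trans (le_of_eq ?_)
    rw [← b.sum_sq_norm_inner_right Q]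
    refine Finset.sum_congr rfl fun k _ => ?_
    rw [hQ]
    congr 2
    exact Submodule.inner_orthogonalProjectionOnto_eq_of_mem_left (b k) _
  refine (Finset.sum_le_sum fun x _ => hq x).trans (le_of_eq ?_)
  rw [Finset.sum_comm]
  have h8 : ∀ k, ∑ x : F × ι, ‖⟪((b k : V) : EuclideanSpace ℂ (F × ι)), EuclideanSpace.single x (1 : ℂ)⟫_ℂ‖ ^ 2 = 1 := by
    intro k
    have h9 := (EuclideanSpace.basisFun (F × ι) ℂ).sum_sq_norm_inner_left ((b k : V) : EuclideanSpace ℂ (F × ι))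
    have h10 : ‖((b k : V) : EuclideanSpace ℂ (F × ι))‖ = 1 := b.orthonormal.1 k
    rw [h10, one_pow] at h9
    rw [← h9]
    refine Finset.sum_congr rfl fun x _ => ?_
    rw [EuclideanSpace.basisFun_apply]
  rw [Finset.sum_congr rfl fun k _ => h8 k, Finset.sum_const, Finset.card_univ, Fintype.card_fin, nsmul_eq_mul, mul_one]

/-- the same for the von Neumann dimension -/
theorem card_mul_vdim_le {H : Submodule ℂ (E Γ ι)} (hI : Singer.Inv H) (hcl : IsClosed (H : Set (E Γ ι))) (F : Finset Γ) :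
    (F.card : ℝ) * vdim H ≤ (Module.finrank ℂ (H.map (rs F)) : ℝ) := by
  refine le_trans (le_of_eq ?_) (sum_prj_le hcl F)
  have h1 : ∀ (g : Γ) (j : ι), ‖prj H (del g j)‖ = ‖prj H (del 1 j)‖ := by
    intro g j
    have h2 : (del g j : E Γ ι) = lam g (del 1 j) := by rw [lam_del, mul_one]
    rw [h2, equi_prj hI, norm_lam]
  rw [Fintype.sum_prod_type, vdim]
  have h3 : ∀ g : F, ∑ j : ι, ‖prj H (del g.1 j)‖ ^ 2 = ∑ j : ι, ‖prj H (del 1 j)‖ ^ 2 := fun g =>
    Finset.sum_congr rfl fun j _ => by rw [h1]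
  show _ = ∑ g : F, ∑ j : ι, ‖prj H (del g.1 j)‖ ^ 2
  rw [Finset.sum_congr rfl fun g _ => h3 g, Finset.sum_const, Finset.card_univ, Fintype.card_coe, nsmul_eq_mul]

end fin

section amen
variable {Γ : Type} [Group Γ]

open Classical in
/-- elements near the boundary of `F` -/
noncomputable def bdr (S F : Finset Γ) : Finset Γ :=
  (S ×ˢ S).biUnion fun p => (F.filter fun a => a * (p.1 * p.2⁻¹) ∉ F).image (· * p.1)

lemma mem_bdr {S F : Finset Γ} {g x y : Γ} (hx : x ∈ S) (hy : y ∈ S) (h1 : g * x⁻¹ ∈ F) (h2 : g * y⁻¹ ∉ F) :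
    g ∈ bdr S F := by
  classical
  unfold bdr
  rw [Finset.mem_biUnion]
  refine ⟨(x, y), Finset.mem_product.2 ⟨hx, hy⟩, Finset.mem_image.2 ⟨g * x⁻¹, Finset.mem_filter.2 ⟨h1, ?_⟩, ?_⟩⟩
  · rwa [← mul_assoc, inv_mul_cancel_right]
  · exact inv_mul_cancel_right g x

open Classical in
lemma card_bdr {S F : Finset Γ} {k : ℕ}
    (h : ∀ x ∈ S, ∀ y ∈ S, (k + 1) * (F.filter fun a => a * (x * y⁻¹) ∉ F).card ≤ F.card) :
    (k + 1) * (bdr S F).card ≤ S.card * S.card * F.card := by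
  have h1 : (bdr S F).card ≤ ∑ p ∈ S ×ˢ S, (F.filter fun a => a * (p.1 * p.2⁻¹) ∉ F).card :=
    Finset.card_biUnion_le.trans (Finset.sum_le_sum fun p _ => Finset.card_image_le)
  refine (Nat.mul_le_mul_left _ h1).trans ?_
  rw [Finset.mul_sum]
  refine (Finset.sum_le_sum fun p hp => h p.1 (Finset.mem_product.1 hp).1 p.2 (Finset.mem_product.1 hp).2).trans ?_
  rw [Finset.sum_const, Finset.card_product, smul_eq_mul]

/-- the dimension of the restricted subspace is bounded by the size of the boundary -/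
theorem finrank_le_bdr {ι κ : Type*} [Fintype ι] [Fintype κ] {M : Matrix ι κ (MonoidAlgebra ℤ Γ)} {S F : Finset Γ}
    {H : Submodule ℂ (E Γ ι)} (hS : ∀ a l, (M a l).coeff.support ⊆ S) (hker : ∀ h ∈ H, hat M h = 0)
    (hzero : ∀ h ∈ H, hat M (ex F (rs F h)) = 0 → rs F h = 0) :
    Module.finrank ℂ (H.map (rs F)) ≤ (bdr S F).card * Fintype.card κ := by
  classical
  have h3 : Module.finrank ℂ (EuclideanSpace ℂ ((bdr S F) × κ)) = (bdr S F).card * Fintype.card κ := by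
    rw [finrank_euclideanSpace, Fintype.card_prod, Fintype.card_coe]
  rw [← h3]
  let T : (H.map (rs F)) →ₗ[ℂ] EuclideanSpace ℂ ((bdr S F) × κ) :=
    ((rs (bdr S F)).comp ((hat M).toLinearMap.comp (ex F))).comp (H.map (rs F)).subtype
  refine LinearMap.finrank_le_finrank_of_injective (f := T) ?_
  rw [injective_iff_map_eq_zero]
  rintro ⟨c, hc⟩ hTc
  obtain ⟨h, hh, rfl⟩ := hc
  have h4 : ∀ y : (bdr S F) × κ, hat M (ex F (rs F h)) (y.1.1, y.2) = 0 := by
    intro y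
    exact congrArg (fun v : EuclideanSpace ℂ ((bdr S F) × κ) => v y) hTc
  refine Subtype.ext (hzero h hh ?_)
  ext p
  obtain ⟨g, l⟩ := p
  show hat M (ex F (rs F h)) (g, l) = 0
  by_cases hg : g ∈ bdr S F
  · exact h4 (⟨g, hg⟩, l)
  · rw [hat_apply]
    by_cases hx : ∃ x ∈ S, g * x⁻¹ ∈ F
    · obtain ⟨x, hxS, hxF⟩ := hx
      have h7 : ∀ y ∈ S, g * y⁻¹ ∈ F := by
        intro y hy
        by_contra hyF
        exact hg (mem_bdr hxS hy hxF hyF)
      have h9 : hat M h (g, l) = 0 := by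
        rw [hker h hh]
        rfl
      rw [hat_apply] at h9
      rw [← h9]
      refine Finset.sum_congr rfl fun a _ => Finset.sum_congr rfl fun y hy => ?_
      rw [ex_mem F _ (h7 y (hS a l hy))]
      rfl
    · push Not at hx
      refine Finset.sum_eq_zero fun a _ => Finset.sum_eq_zero fun y hy => ?_
      rw [ex_notMem F _ (hx y (hS a l hy)), mul_zero]

/-- amenable groups have no `ℓ²`-homology in positive degrees -/
theorem van_amen (hA : Amenable Γ) (R : FinRes Γ) (i : ℕ) : R.toRes.toHC.h (i + 1) = 0 := by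
  classical
  obtain ⟨B, hB⟩ : ∃ B : Submodule ℂ (E Γ (R.ι (i + 1))), B = R.toRes.toHC.B (i + 1) := ⟨_, rfl⟩
  obtain ⟨Z, hZ⟩ : ∃ Z : Submodule ℂ (E Γ (R.ι (i + 1))), Z = R.toRes.toHC.Z (i + 1) := ⟨_, rfl⟩
  obtain ⟨H, hH⟩ : ∃ H : Submodule ℂ (E Γ (R.ι (i + 1))), H = Z ⊓ Bᗮ := ⟨_, rfl⟩
  have hBm := R.toRes.toHC.B_mdl (i + 1)
  have hZm := R.toRes.toHC.Z_mdl (i + 1)
  have hBZ : B ≤ Z := by
    rw [hB, hZ]
    exact R.toRes.toHC.B_le_Z (i + 1)
  rw [← hB] at hBm
  rw [← hZ] at hZm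
  have hBI : Singer.Inv B := hBm.inv
  have hBc : IsClosed (B : Set (E Γ (R.ι (i + 1)))) := hBm.cl
  have hZI : Singer.Inv Z := hZm.inv
  have hZc : IsClosed (Z : Set (E Γ (R.ι (i + 1)))) := hZm.cl
  have hHI : Singer.Inv H := by
    rw [hH]
    exact hZI.inf hBI.orthogonal
  have hHc : IsClosed (H : Set (E Γ (R.ι (i + 1)))) := by
    rw [hH, Submodule.coe_inf]
    exact hZc.inter (Submodule.isClosed_orthogonal _)
  have hHker : ∀ h ∈ H, hat (R.d i) h = 0 := by
    intro h hh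
    rw [hH, hZ] at hh
    exact hh.1.2
  have hHort : ∀ h ∈ H, ∀ y : E Γ (R.ι (i + 2)), ⟪hat (R.d (i + 1)) y, h⟫_ℂ = 0 := by
    intro h hh y
    rw [hH, hB] at hh
    refine (Submodule.mem_orthogonal _ _).1 hh.2 _ ?_
    exact (R.mem_B (i + 1) _).2 (subset_closure ⟨y, rfl⟩)
  -- the support of the matrix
  obtain ⟨S, hS⟩ : ∃ S : Finset Γ, ∀ a l, (R.d i a l).coeff.support ⊆ S :=
    ⟨Finset.univ.biUnion fun a => Finset.univ.biUnion fun l => (R.d i a l).coeff.support, fun a l x hx =>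
      Finset.mem_biUnion.2 ⟨a, Finset.mem_univ _, Finset.mem_biUnion.2 ⟨l, Finset.mem_univ _, hx⟩⟩⟩
  have key : ∀ k : ℕ, ((k : ℝ) + 1) * vdim H ≤ (S.card * S.card : ℕ) * Fintype.card (R.ι i) := by
    intro k
    obtain ⟨F, hF0, hF⟩ := hA ((S ×ˢ S).image fun p => p.1 * p.2⁻¹) k
    have hb : (k + 1) * (bdr S F).card ≤ S.card * S.card * F.card :=
      card_bdr fun x hx y hy => hF _ (Finset.mem_image.2 ⟨(x, y), Finset.mem_product.2 ⟨hx, hy⟩, rfl⟩)
    have h1 := card_mul_vdim_le hHI hHc F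
    have h2 : Module.finrank ℂ (H.map (rs F)) ≤ (bdr S F).card * Fintype.card (R.ι i) := by
      refine finrank_le_bdr hS hHker fun h hh h6 => ?_
      obtain ⟨y, -, -, hy⟩ := R.toRes.ex_succ i (ex F (rs F h)) trivial (fs_ex F _) h6
      have hy' : ex F (rs F h) = hat (R.d (i + 1)) y := hy.symm
      have h10 : ⟪ex F (rs F h), h⟫_ℂ = 0 := by
        rw [hy']
        exact hHort h hh y
      rwa [inner_ex, inner_self_eq_zero] at h10
    have h11 : (0 : ℝ) < F.card := by exact_mod_cast hF0.card_pos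
    have h12 : ((k : ℝ) + 1) * (bdr S F).card ≤ (S.card * S.card : ℕ) * F.card := by exact_mod_cast hb
    have h13 : (Module.finrank ℂ (H.map (rs F)) : ℝ) ≤ (bdr S F).card * Fintype.card (R.ι i) := by exact_mod_cast h2
    have h14 : (0 : ℝ) ≤ Fintype.card (R.ι i) := Nat.cast_nonneg _
    have h15 : (F.card : ℝ) * (((k : ℝ) + 1) * vdim H) ≤ F.card * ((S.card * S.card : ℕ) * Fintype.card (R.ι i)) := by
      calc (F.card : ℝ) * (((k : ℝ) + 1) * vdim H) = ((k : ℝ) + 1) * (F.card * vdim H) := by ring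
        _ ≤ ((k : ℝ) + 1) * ((bdr S F).card * Fintype.card (R.ι i)) :=
            mul_le_mul_of_nonneg_left (h1.trans h13) (by positivity)
        _ = ((k : ℝ) + 1) * (bdr S F).card * Fintype.card (R.ι i) := by ring
        _ ≤ (S.card * S.card : ℕ) * F.card * Fintype.card (R.ι i) := mul_le_mul_of_nonneg_right h12 h14
        _ = F.card * ((S.card * S.card : ℕ) * Fintype.card (R.ι i)) := by ring
    exact le_of_mul_le_mul_left h15 h11
  have hv : vdim H ≤ 0 := by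
    by_contra hcon
    push Not at hcon
    obtain ⟨k, hk⟩ := exists_nat_gt (((S.card * S.card : ℕ) * Fintype.card (R.ι i) : ℝ) / vdim H)
    have h1 := key k
    rw [div_lt_iff₀ hcon] at hk
    nlinarith
  have h1 := vdim_add_diff hBc hBZ
  rw [← hH] at h1
  have h2 : vdim H = 0 := le_antisymm hv (vdim_nonneg H)
  have h3 : vdim Z = vdim B := by linarith
  rw [hZ, hB] at h3
  exact sub_eq_zero.2 h3

end amen

end SQ.V
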