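import Pool.Agent.Npc.Fin
import Pool.Agent.Singer.DualAsm
import Pool.Agent.Helper50.SG.HierMain

/-!
# The inequality for groups acting on `CAT(0)` cube complexes, for arbitrary resolutions

* `h_le` : the inequality for the `ℓ²`-Betti numbers computed with a resolution over `ℂ`;
* `bet_zero` : `bet L i` vanishes if the `ℓ²`-homology of the right-angled Coxeter group of `L` vanishes in degree `i`;
* `van_cube` : the consequence for the vanishing.
-/

set_option autoImplicit false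
set_option linter.unusedSectionVars false
set_option linter.unusedVariables false

namespace SQ.V

open Singer SingerChess Npc

section res
variable {H P G : Type*} [Group G] [MulAction G H] [MulAction G P] {S : Sys H P G} [Cof G P] {x0 : P} {ht : P → ℕ}

/-- the `ℓ²`-Betti numbers of the group are those of the cube complex -/
theorem h_eq_pbet (hH : Ht S x0 ht) (R : Res.{0} G) (i : ℕ) : R.toHC.h i = pbet S i := by
  rw [Res.h_eq R (pRes hH)]
  show vdim ((pRes (G := G) hH).toPreRes.toHC.Z i) - vdim ((pRes (G := G) hH).toPreRes.toHC.B i) = pbet S i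
  have hB : vdim ((pRes (G := G) hH).toPreRes.toHC.B i) = vd G (PBd S i) := vdim_B hH i
  cases i with
  | zero =>
    have hZ : vdim ((pRes (G := G) hH).toPreRes.toHC.Z 0) = vd G (PCh S 0) := vdim_Z_zero hH
    rw [hZ, hB]
    rfl
  | succ i =>
    have hZ : vdim ((pRes (G := G) hH).toPreRes.toHC.Z (i + 1)) = vd G (PCyc S i) := vdim_Z_succ hH i
    rw [hZ, hB]
    rfl

end res

section main
variable {X Γ : Type} [Group Γ] [MulAction Γ X] {𝔛 : SimpleGraph X}

/-- the inequality for an arbitrary resolution -/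
theorem h_le (h𝔛 : Median 𝔛) (hΓ : ∀ (g : Γ) (x y : X), 𝔛.Adj (g • x) (g • y) ↔ 𝔛.Adj x y)
    (free : ∀ (g : Γ) (x : X), g • x = x → g = 1) (F : Finset X) (hF : ∀ x : X, ∃ g : Γ, ∃ f ∈ F, g • f = x)
    [∀ x, Fintype (𝔛.neighborSet x)] [DecidableEq X] (R : Res.{0} Γ) (i : ℕ) :
    R.toHC.h i ≤ ∑ x ∈ F, bet (linkG 𝔛 x) i := by
  classical
  have hA : GraphAct Γ 𝔛 := ⟨hΓ⟩
  have hC : Cof Γ X := cof_of free F hF
  have fin : ∀ x, (𝔛.neighborSet x).Finite := fun x => Set.toFinite _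
  obtain ⟨bd, hbd⟩ := exists_bd (X := 𝔛) Γ
  have : Nonempty X := h𝔛.conn.nonempty
  obtain ⟨x0⟩ := this
  have hS := medHt h𝔛 free bd fin hbd x0
  rw [h_eq_pbet hS R i]
  refine (pbet_le_sum hS i).trans ?_
  have h1 : ∀ q : Orb Γ X, ∃ f ∈ F, ∃ g : Γ, g • f = q.out := fun q => by
    obtain ⟨g, f, hf, e⟩ := hF q.out
    exact ⟨f, hf, g, e⟩
  choose f hf g e using h1
  have hinj : Function.Injective f := by
    intro q q' hq
    rw [← Quotient.out_eq' q, ← Quotient.out_eq' q']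
    refine Quotient.sound' ⟨g q * (g q')⁻¹, ?_⟩
    show (g q * (g q')⁻¹) • q'.out = q.out
    rw [← e q', ← e q, hq, mul_smul, inv_smul_smul]
  have h2 : ∀ q : Orb Γ X, tbet (lkG (medSys h𝔛 free bd fin hbd) q.out) i = bet (linkG 𝔛 (f q)) i := by
    intro q
    rw [tbet_eq_bet, ← bet_iso (medLink h𝔛 free bd fin hbd q.out) i]
    have h3 : ∀ (y : X) (h : g q • f q = y), bet (linkG 𝔛 y) i = bet (linkG 𝔛 (f q)) i := by
      rintro _ rfl
      exact (bet_iso (linkSmul (g q) (f q)) i).symm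
    exact h3 _ (e q)
  rw [Finset.sum_congr rfl fun q _ => h2 q]
  rw [← Finset.sum_image (f := fun x => bet (linkG 𝔛 x) i) (g := f) (fun q _ q' _ hq => hinj hq)]
  refine Finset.sum_le_sum_of_subset_of_nonneg ?_ fun x _ _ => ?_
  · intro x hx
    obtain ⟨q, -, rfl⟩ := Finset.mem_image.1 hx
    exact hf q
  · exact bn_nonneg _ _ _ rk_inj _ _

/-- the Davis complex computes the `ℓ²`-homology of the right-angled Coxeter group -/
theorem bet_zero {V : Type} [Fintype V] [DecidableEq V] {G : SimpleGraph V} {i : ℕ}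
    (h : ∀ R : Res.{0} (RACG G), R.Z i ≤ R.B i) : bet G i = 0 := by
  have hr : Function.Injective (rk : V → ℕ) := rk_inj
  rw [bet_eq_bn G hr]
  exact bn_eq_zero_of_le hr ((davisResC_le_iff hr i).1 (h (davisResC G hr)))

/-- the vanishing theorem -/
theorem van_cube (h𝔛 : Median 𝔛) (fin : ∀ x, (𝔛.neighborSet x).Finite)
    (hΓ : ∀ (g : Γ) (x y : X), 𝔛.Adj x y → 𝔛.Adj (g • x) (g • y))
    (free : ∀ (g : Γ) (x : X), g • x = x → g = 1) (F : Finset X) (hF : ∀ x : X, ∃ f ∈ F, ∃ g : Γ, g • f = x)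
    {i : ℕ} (h : ∀ x ∈ F, ∀ R : Res.{0} (RACG (linkG 𝔛 x)), R.Z i ≤ R.B i) (R : Res.{0} Γ) : R.Z i ≤ R.B i := by
  classical
  letI : ∀ x, Fintype (𝔛.neighborSet x) := fun x => (fin x).fintype
  have hΓ' : ∀ (g : Γ) (x y : X), 𝔛.Adj (g • x) (g • y) ↔ 𝔛.Adj x y := fun g x y => ⟨fun h => by
    have h1 := hΓ g⁻¹ _ _ h
    rwa [inv_smul_smul, inv_smul_smul] at h1, hΓ g x y⟩
  rw [← Res.h_eq_zero_iff]
  refine le_antisymm ((h_le h𝔛 hΓ' free F (fun x => ?_) R i).trans (le_of_eq ?_)) (HC.h_nonneg _ i)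
  · obtain ⟨f, hf, g, hg⟩ := hF x
    exact ⟨g, f, hf, hg⟩
  · exact Finset.sum_eq_zero fun x hx => bet_zero (h x hx)

end main

end SQ.V
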