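import Pool.Agent.Singer.Compare

/-!
# Infinite groups have no `ℓ²`-homology in degree zero
-/

set_option autoImplicit false

open scoped ComplexConjugate InnerProductSpace

namespace SQ.V

open Singer

/-- infinite groups have no reduced `ℓ²`-homology in degree zero -/
theorem van_zero {Γ : Type*} [Group Γ] [Infinite Γ] (R : Res.{0} Γ) : R.Z 0 ≤ R.B 0 := by
  intro x hx
  have hxP : x ∈ R.P 0 := hx
  show x ∈ ((R.P 1).map (R.d 0 : E Γ (R.ι 1) →ₗ[ℂ] E Γ (R.ι 0))).topologicalClosure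
  rw [← Submodule.orthogonal_orthogonal_eq_closure, Submodule.mem_orthogonal]
  intro f hf
  rw [Submodule.mem_orthogonal] at hf
  obtain ⟨f', hf'⟩ : ∃ f' : E Γ (R.ι 0), ∀ y, ⟪y, f'⟫_ℂ = ⟪R.e 0 y, f⟫_ℂ :=
    ⟨ContinuousLinearMap.adjoint (R.e 0) f, fun y => ContinuousLinearMap.adjoint_inner_right _ _ _⟩
  have hconst : ∀ (g : Γ) (j : R.ι 0), f' (g, j) = f' (1, j) := by
    intro g j
    rw [← inner_del_left g j f', ← inner_del_left 1 j f', hf', hf', ← sub_eq_zero, ← inner_sub_left]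
    have h1 : FS (R.e 0 (del g j) - R.e 0 (del 1 j)) :=
      ((R.mat_e 0).fs (fs_del g j)).sub ((R.mat_e 0).fs (fs_del 1 j))
    have h2 : R.e 0 (del g j) - R.e 0 (del 1 j) ∈ R.P 0 := (R.P 0).sub_mem (R.e_mem 0 _) (R.e_mem 0 _)
    have h3 : eps R.w (R.e 0 (del g j) - R.e 0 (del 1 j)) = 0 := by
      rw [eps_sub R.w ((R.mat_e 0).fs (fs_del g j)) ((R.mat_e 0).fs (fs_del 1 j)), equi_del (R.mat_e 0).equi g j,
        eps_lam, sub_self]
    obtain ⟨y, hy, -, hyd⟩ := R.ex_zero _ h2 h1 h3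
    rw [← hyd]
    exact hf _ ⟨y, hy, rfl⟩
  have hzero : f' = 0 := by
    ext p
    obtain ⟨g, j⟩ := p
    rw [hconst g j]
    show f' (1, j) = 0
    have h1 : Summable fun g : Γ => ‖f' (g, j)‖ ^ 2 :=
      (summable_sq f').comp_injective (i := fun g : Γ => (g, j)) fun a b hab => congrArg Prod.fst hab
    have h2 : Summable fun _ : Γ => ‖f' (1, j)‖ ^ 2 := h1.congr fun g => by rw [hconst g j]
    rw [summable_const_iff] at h2
    exact norm_eq_zero.1 (pow_eq_zero_iff (two_ne_zero)|>.1 h2)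
  have h4 : ⟪x, f⟫_ℂ = 0 := by
    rw [← R.e_eq 0 x hxP, ← hf', hzero, inner_zero_right]
  rw [← inner_conj_symm, h4, map_zero]

end SQ.V
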