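import Pool.Agent.SQ.V.Stmt
import Pool.Agent.SQ.V.Cube
import Pool.Agent.SQ.V.Zero
import Pool.Agent.SQ.V.Amen
import Pool.Agent.SQ.Up.Main
import Pool.Agent.SQ.U.Cls
import Pool.Agent.SQ.U.NT
import Pool.Agent.SQ.FreeRes

/-!
# Groups in the class `Van i` have no `ℓ²`-homology in degree `i`
-/

set_option autoImplicit false

namespace SQ.V

open Singer CubeComplex

open Classical in
theorem foe_of {G : Type} [Group G] (h : Amenable G) : SQ.T3.Foe G := by
  intro S k
  obtain ⟨F, hF, hS⟩ := h S (S.card * (k + 1))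
  let E : G → Finset G := fun s => F.filter fun x => x * s ∉ F
  have hE : ∀ s ∈ S, (S.card * (k + 1) + 1) * (E s).card ≤ F.card := hS
  refine ⟨F ∪ S.biUnion fun s => (E s).image (· * s), F, hF, Finset.subset_union_left, ?_, ?_⟩
  · intro q hq s hs
    by_cases h1 : q * s ∈ F
    · exact Finset.mem_union_left _ h1
    · exact Finset.mem_union_right _ (Finset.mem_biUnion.2 ⟨s, hs, Finset.mem_image.2 ⟨q, Finset.mem_filter.2 ⟨hq, h1⟩, rfl⟩⟩)
  · have h1 : (S.biUnion fun s => (E s).image (· * s)).card ≤ ∑ s ∈ S, (E s).card :=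
      Finset.card_biUnion_le.trans (Finset.sum_le_sum fun s _ => Finset.card_image_le)
    have h2 : (S.card * (k + 1) + 1) * ∑ s ∈ S, (E s).card ≤ S.card * F.card := by
      rw [Finset.mul_sum]
      exact (Finset.sum_le_sum hE).trans (by rw [Finset.sum_const, smul_eq_mul])
    have h3 : (k + 1) * ∑ s ∈ S, (E s).card ≤ F.card := by
      rcases Nat.eq_zero_or_pos S.card with h0 | h0
      · rw [Finset.card_eq_zero.1 h0, Finset.sum_empty, mul_zero]
        exact Nat.zero_le _
      · refine Nat.le_of_mul_le_mul_left ?_ h0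
        calc S.card * ((k + 1) * ∑ s ∈ S, (E s).card) ≤ (S.card * (k + 1) + 1) * ∑ s ∈ S, (E s).card := by
              rw [← mul_assoc]
              exact Nat.mul_le_mul_right _ (Nat.le_succ _)
          _ ≤ S.card * F.card := h2
    have h4 := Finset.card_union_le F (S.biUnion fun s => (E s).image (· * s))
    calc (k + 1) * (F ∪ S.biUnion fun s => (E s).image (· * s)).card ≤ (k + 1) * (F.card + ∑ s ∈ S, (E s).card) :=
          Nat.mul_le_mul_left _ (h4.trans (Nat.add_le_add_left h1 _))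
      _ = (k + 1) * F.card + (k + 1) * ∑ s ∈ S, (E s).card := mul_add _ _ _
      _ ≤ (k + 1) * F.card + F.card := Nat.add_le_add_left h3 _
      _ = (k + 2) * F.card := by ring

theorem cls_of {G : Type} [Group G] (h : InClass G) : SQ.U.Cls G := by
  induction h with
  | trivial G h => exact SQ.U.Cls.triv G h
  | ordered N _ h ih => exact SQ.U.Cls.ord N ih h
  | amenable N _ h1 h2 ih => exact SQ.U.Cls.amen N ih ⟨foe_of h1, h2⟩
  | residual Q π _ h ih => exact SQ.U.Cls.res Q π ih h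
  | union _ ih => exact SQ.U.Cls.loc ih

/-- transfer from one resolution by finitely generated free modules to all resolutions -/
theorem van_of_vanE {Γ : Type} [Group Γ] (F : FinRes Γ) {i : ℕ} (h : F.VanE i) (R : Res.{0} Γ) : R.Z i ≤ R.B i := by
  have h1 : F.toRes.Z i ≤ F.toRes.B i := (F.van_iff_le i).1 ((F.van_iff_vanE i).2 h)
  rw [← Res.h_eq_zero_iff, Res.h_eq R F.toRes, Res.h_eq_zero_iff]
  exact h1

theorem vanE_of_van {Γ : Type} [Group Γ] (F : FinRes Γ) {i : ℕ} (h : ∀ R : Res.{0} Γ, R.Z i ≤ R.B i) : F.VanE i := by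
  rw [← F.van_iff_vanE, F.van_iff_le]
  exact h _

/-- **vanishing** for the groups of the classes -/
theorem Van.van {i : ℕ} {Γ : Type} [Group Γ] (h : Van i Γ) (R : Res.{0} Γ) : R.Z i ≤ R.B i := by
  induction h with
  | sub K F hn hK hi => exact van_of_vanE F (U.vanE_sub_cls_of U.stmtCoef hn K (cls_of hK) F _ hi) R
  | dim R₀ h0 => exact van_of_isEmpty R₀ h0 R
  | zero h0 =>
    have : Infinite _ := h0
    exact van_zero R
  | amen F hA =>
    rw [← Res.h_eq_zero_iff, Res.h_eq R F.toRes]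
    exact van_amen hA F _
  | supergroup j hj hf _ ih =>
    obtain ⟨T⟩ := exists_trv_hom j hj hf
    exact (T.vanish_iff R _).1 (ih (T.res R))
  | subgroup j R' hj hf _ ih =>
    obtain ⟨T⟩ := exists_trv_hom j hj hf
    have h1 := (T.vanish_iff R'.toRes _).2 (ih R'.toRes)
    rw [← Res.h_eq_zero_iff, Res.h_eq R (T.res R'.toRes), Res.h_eq_zero_iff]
    exact h1
  | @dual i j Γ _ hn _ ih =>
    obtain ⟨F⟩ := SQ.exists_finRes_of_isPD hn
    exact van_of_vanE F (((l2_dual F hn).1 i j rfl).1 (vanE_of_van F ih)) R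
  | @mirror i Γ V _ _ T F hT _ ih =>
    classical
    obtain ⟨tree, act, inv, hF, ⟨K, hK⟩, RV, RE⟩ := hT
    obtain ⟨S, I, SM, h⟩ := tree_le T tree act inv (fun x : F => x.1) (fun v => by
      obtain ⟨x, hx, g, hg⟩ := hF v
      exact ⟨⟨x, hx⟩, g, hg⟩) K hK (fun v => (RV v).some) (fun v w hvw => (RE v w hvw).some)
    rw [← Res.h_eq_zero_iff, Res.h_eq R S]
    refine le_antisymm ((h i).trans (le_of_eq ?_)) (HC.h_nonneg _ i)
    refine Finset.sum_eq_zero fun j _ => ?_
    exact (Res.h_eq_zero_iff (SM j) i).2 (ih j.1.1 j.1.2 (SM j))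
  | @tree i Γ V _ _ T F hT _ _ ihV ihE =>
    obtain ⟨tree, act, inv, hF, ⟨K, hK⟩, RV, RE⟩ := hT
    exact van_tree T tree act inv F K hF hK RV RE ihV ihE R
  | @vertex i Γ V _ _ T F v hT _ _ ihG ihE =>
    obtain ⟨tree, act, inv, hF, ⟨K, hK⟩, RV, RE⟩ := hT
    exact van_vertex T tree act inv F K hF hK RV RE ihG ihE v R
  | @edge i Γ V _ _ T F v w hT _ _ hvw ihG ihV =>
    obtain ⟨tree, act, inv, hF, ⟨K, hK⟩, RV, RE⟩ := hT
    exact van_edge T tree act inv F K hF hK RV RE ihG ihV v w hvw R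
  | @cube i Γ X _ _ M F hM _ ih =>
    exact van_cube ⟨hM.median.conn, hM.median.med⟩ hM.fin hM.act hM.free F hM.vert ih R

/-- the elementary form -/
theorem Van.vanE {i : ℕ} {Γ : Type} [Group Γ] (h : Van i Γ) (R : FinRes Γ) : R.VanE i := vanE_of_van R h.van

/-- **the Singer conjecture** for the Poincare duality groups which are in the classes `Van i` for `n / 2 < i ≤ n` -/
theorem singer {n : ℕ} {Γ : Type} [Group Γ] (hn : IsPD n Γ) (h : ∀ i, n < 2 * i → i ≤ n → Van i Γ) :
    Nonempty (FinRes Γ) ∧ ∀ (R : FinRes Γ) (i : ℕ), 2 * i ≠ n → R.VanE i := by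
  refine ⟨SQ.exists_finRes_of_isPD hn, fun R i hi => ?_⟩
  rcases lt_or_gt_of_ne hi with h1 | h1
  · exact ((l2_dual R hn).1 (n - i) i (by omega)).1 ((h (n - i) (by omega) (by omega)).vanE R)
  · rcases le_or_gt i n with h2 | h2
    · exact (h i h1 h2).vanE R
    · exact (l2_dual R hn).2 i h2

end SQ.V
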