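import Pool.Agent.SQ.V.Main
import Pool.Agent.SQ.T2.Racg
import Pool.Agent.SQ.T3.Fin
import Pool.Agent.SQ.BO.Cor
import Pool.Agent.SQ.UpH.Stmt
import Pool.Agent.Npc.Sph
import Pool.Agent.Helper18.Hier.Stmt

/-!
# Groups in the classes `Van i`

* `van_of_inClass` : Poincare duality groups of dimension `n` which are virtually in `InClass` are in `Van i`, `2 * i ≠ n`;
* `van_cox` : so are the groups commensurable with the right-angled Coxeter groups of flag homology spheres of
  dimension `n - 1`;
* `van_cubical` : so are the groups acting freely and cocompactly on cubical homology manifolds of dimension `n`;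
* `van_hierarchy`, `van_up` : the classes `Hierarchy n` and `Up n`.
-/

set_option autoImplicit false

namespace SQ.V

open Singer CubeComplex

/-! ### the class `InClass` -/

open Classical in
theorem of_foe {G : Type} [Group G] (h : SQ.T3.Foe G) : Amenable G := by
  intro S k
  obtain ⟨Φ, I, h1, h2, h3, h4⟩ := h S k
  refine ⟨I, h1, fun s hs => ?_⟩
  have h5 : (I.filter fun x => x * s ∉ I).card ≤ (Φ \ I).card := by
    refine Finset.card_le_card_of_injOn (· * s) (fun x hx => ?_) fun x _ y _ hxy => mul_right_cancel hxy
    have h6 := Finset.mem_filter.1 (Finset.mem_coe.1 hx)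
    exact Finset.mem_coe.2 (Finset.mem_sdiff.2 ⟨h3 x h6.1 s hs, h6.2⟩)
  have h6 := Finset.card_sdiff_add_card_eq_card h2
  have h7 : (k + 1) * (Φ \ I).card + (k + 1) * I.card ≤ (k + 1) * I.card + I.card := by
    calc (k + 1) * (Φ \ I).card + (k + 1) * I.card = (k + 1) * Φ.card := by rw [← mul_add, h6]
      _ ≤ (k + 2) * I.card := h4
      _ = (k + 1) * I.card + I.card := by ring
  calc (k + 1) * (I.filter fun x => x * s ∉ I).card ≤ (k + 1) * (Φ \ I).card := Nat.mul_le_mul_left _ h5
    _ ≤ I.card := by omega

theorem of_cls {G : Type} [Group G] (h : SQ.U.Cls G) : InClass G := by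
  induction h with
  | triv G h => exact InClass.trivial G h
  | ord N _ h ih => exact InClass.ordered N ih h
  | amen N _ h ih => exact InClass.amenable N ih (of_foe h.foe) h.li
  | res Q π _ h ih => exact InClass.residual Q π ih h
  | loc _ ih => exact InClass.union ih

/-- the class is closed under subgroups -/
theorem InClass.subgroup {G : Type} [Group G] (h : InClass G) :
    ∀ (K : Type) [Group K] (f : K →* G), Function.Injective f → InClass K := by
  induction h with
  | trivial G h => exact fun K _ f hf => InClass.trivial K fun g => hf ((h _).trans (h _).symm)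
  | @ordered G _ N _ _ h ih =>
    intro K _ f hf
    have hinj : Function.Injective (QuotientGroup.map (N.comap f) N f le_rfl) := by
      rw [injective_iff_map_eq_one]
      intro x
      induction x using QuotientGroup.induction_on with | H x
      intro hx
      rw [QuotientGroup.map_mk, QuotientGroup.eq_one_iff] at hx
      exact (QuotientGroup.eq_one_iff x).2 hx
    refine InClass.ordered (N.comap f) (ih _ ((f.comp (N.comap f).subtype).codRestrict N fun x => x.2) fun x y hxy => ?_)
      (SQ.BO.BiOrd.of_injective h _ hinj)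
    exact Subtype.ext (hf (congrArg Subtype.val hxy))
  | @amenable G _ N _ _ h1 h2 ih =>
    intro K _ f hf
    have hinj : Function.Injective (QuotientGroup.map (N.comap f) N f le_rfl) := by
      rw [injective_iff_map_eq_one]
      intro x
      induction x using QuotientGroup.induction_on with | H x
      intro hx
      rw [QuotientGroup.map_mk, QuotientGroup.eq_one_iff] at hx
      exact (QuotientGroup.eq_one_iff x).2 hx
    refine InClass.amenable (N.comap f) (ih _ ((f.comp (N.comap f).subtype).codRestrict N fun x => x.2) fun x y hxy => ?_)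
      (of_foe ?_) (SQ.T5.LI.of_injective h2 _ hinj)
    · exact Subtype.ext (hf (congrArg Subtype.val hxy))
    · exact (SQ.T5.foe_subgroup (foe_of h1) _).congr (MonoidHom.ofInjective hinj).symm
  | residual Q π _ h ih =>
    intro K _ f hf
    exact InClass.residual (fun k => Q (f k)) (fun k => (π (f k)).comp f)
      (fun k => ih (f k) _ (MonoidHom.id _) Function.injective_id)
      fun k hk => h (f k) fun h0 => hk (hf (h0.trans (map_one f).symm))
  | union _ ih =>
    intro K _ f hf
    refine InClass.union fun S hS => ?_
    refine ih (S.map f) (SQ.T5.fg_map hS f) S ((f.comp S.subtype).codRestrict (S.map f) fun x => ⟨x, x.2, rfl⟩) fun x y hxy => ?_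
    exact Subtype.ext (hf (congrArg Subtype.val hxy))

/-- bi-orderable groups are in the class -/
theorem InClass.of_biOrderable {G : Type} [Group G] (h : BiOrderable G) : InClass G := by
  refine InClass.ordered (⊥ : Subgroup G) (InClass.trivial _ fun g => Subtype.ext (Subgroup.mem_bot.1 g.2)) ?_
  exact SQ.BO.BiOrd.of_injective h (QuotientGroup.quotientBot : G ⧸ (⊥ : Subgroup G) ≃* G).toMonoidHom
    (QuotientGroup.quotientBot : G ⧸ (⊥ : Subgroup G) ≃* G).injective

/-- the groups which embed in the commutator subgroup of a right-angled Coxeter group are in the class -/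
theorem InClass.of_commutator {V : Type} [Fintype V] (G : SimpleGraph V) {K : Type} [Group K]
    (φ : K →* commutator (RACG G)) (hφ : Function.Injective φ) : InClass K := by
  refine InClass.of_biOrderable (SQ.BO.Cor.biOrd_of_resUT fun h hh => ?_)
  obtain ⟨m, π, h1, h2, -, h3⟩ := SQ.T3.resUT_of_classT (SQ.T2.classT_of_racg G φ hφ) h (by
    rwa [Subgroup.mem_bot])
  exact ⟨m, π, h1, h2, h3⟩

/-! ### groups with a subgroup of finite index in `InClass` -/

/-- the subgroups of finite index of a Poincare duality group -/
theorem van_of_pd {n : ℕ} {Γ : Type} [Group Γ] (hn : IsPD n Γ) (hΓ : InClass Γ) {i : ℕ} (hi : 2 * i ≠ n) : Van i Γ := by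
  have h1 : ∀ i, n < 2 * i → Van i Γ := by
    intro i hi
    have hn' : IsPD n (⊤ : Subgroup Γ) := hn.of_finiteIndex ⊤
    obtain ⟨R⟩ := SQ.exists_finRes_of_isPD hn'
    have h2 : Van i (⊤ : Subgroup Γ) :=
      Van.sub ⊤ R hn (hΓ.subgroup _ (⊤ : Subgroup Γ).subtype (Subgroup.subtype_injective _)) hi
    refine Van.supergroup (⊤ : Subgroup Γ).subtype (Subgroup.subtype_injective _) ?_ h2
    rw [Subgroup.range_subtype]
    infer_instance
  rcases lt_or_gt_of_ne hi with h2 | h2
  · have h3 : IsPD (n - i + i) Γ := by
      rw [Nat.sub_add_cancel (by omega)]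
      exact hn
    exact Van.dual h3 (h1 (n - i) (by omega))
  · exact h1 i h2

/-- **TowerClass**: the Poincare duality groups which are virtually in the class -/
theorem van_of_inClass {n : ℕ} {Γ : Type} [Group Γ] (H : Subgroup Γ) [hf : H.FiniteIndex] (hH : InClass H)
    (hPD : IsPD n Γ ∨ IsPD n H) {i : ℕ} (hi : 2 * i ≠ n) : Van i Γ := by
  refine Van.supergroup H.subtype H.subtype_injective ?_
    (van_of_pd (hPD.elim (fun h => h.of_finiteIndex H) id) hH hi)
  rw [Subgroup.range_subtype]
  exact hf

/-! ### right-angled Coxeter groups -/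

/-- groups commensurable with the right-angled Coxeter group of a flag homology sphere -/
theorem van_cox {n : ℕ} {V : Type} {L : SimpleGraph V} (hL : SingerCube.HSphere n L) {K Γ : Type} [Group K]
    [Group Γ] (k : K →* RACG L) (j : K →* Γ) (hk : Function.Injective k) (hkf : k.range.FiniteIndex)
    (hj : Function.Injective j) (hjf : j.range.FiniteIndex) {i : ℕ} (hi : 2 * i ≠ n) : Van i Γ := by
  classical
  have hV : Finite V := by
    cases n with
    | zero =>
      have h0 : IsEmpty V := hL
      infer_instance
    | succ n => exact hL.1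
  have : Fintype V := Fintype.ofFinite V
  have hkf' : k.range.FiniteIndex := hkf
  have hjf' : j.range.FiniteIndex := hjf
  have hf0' : (ker2 L).FiniteIndex := finiteIndex_ker2 L
  have hinv0 : NoInv (ker2 L) := noInv_ker2 L
  -- the subgroup `ker2 ∩ k(K)`
  let H : Subgroup (RACG L) := ker2 L ⊓ k.range
  have hHf : H.FiniteIndex := ⟨Subgroup.index_inf_ne_zero hf0'.index_ne_zero hkf'.index_ne_zero⟩
  have hHi : NoInv H := fun h hh => hinv0 h hh.1
  have hPD : IsPD n H := isPD_of_goodQ (SingerCube.goodQ_of_hsphere hL) hHf hHi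
  have hle : H ≤ commutator (RACG L) := inf_le_left.trans (SQ.FinSt.ker2_le_commutator L)
  have hcl : InClass H := InClass.of_commutator L (Subgroup.inclusion hle) (Subgroup.inclusion_injective hle)
  let e : K ≃* k.range := MonoidHom.ofInjective hk
  let f : H →* Γ := (j.comp e.symm.toMonoidHom).comp (Subgroup.inclusion inf_le_right)
  have hf : Function.Injective f := by
    refine hj.comp (e.symm.injective.comp ?_)
    exact Subgroup.inclusion_injective inf_le_right
  have hrange : f.range = ((ker2 L).comap k).map j := by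
    ext x
    constructor
    · rintro ⟨⟨y, hy1, hy2⟩, rfl⟩
      obtain ⟨z, rfl⟩ := hy2
      refine ⟨z, hy1, ?_⟩
      show j z = j (e.symm ⟨k z, _⟩)
      congr 1
      rw [MulEquiv.eq_symm_apply]
      rfl
    · rintro ⟨z, hz, rfl⟩
      refine ⟨⟨k z, hz, ⟨z, rfl⟩⟩, ?_⟩
      show j (e.symm ⟨k z, _⟩) = j z
      congr 1
      rw [MulEquiv.symm_apply_eq]
      rfl
  have hfi : f.range.FiniteIndex := by
    rw [hrange]
    constructor
    rw [Subgroup.index_map_of_injective _ hj]
    have h1 : ((ker2 L).comap k).index ≠ 0 := by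
      rw [Subgroup.index_comap]
      exact fun h0 => hf0'.index_ne_zero (Subgroup.index_eq_zero_of_relIndex_eq_zero h0)
    exact mul_ne_zero h1 hjf'.index_ne_zero
  exact Van.supergroup f hf hfi (van_of_pd hPD hcl hi)

/-- the right-angled Coxeter groups of the flag homology spheres -/
theorem van_racg {n : ℕ} {V : Type} {L : SimpleGraph V} (hL : SingerCube.HSphere n L) {i : ℕ} (hi : 2 * i ≠ n) :
    Van i (RACG L) := by
  have h : (MonoidHom.id (RACG L)).range.FiniteIndex := by
    rw [MonoidHom.range_eq_top.2 fun x => ⟨x, rfl⟩]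
    infer_instance
  exact van_cox hL (MonoidHom.id _) (MonoidHom.id _) Function.injective_id h Function.injective_id h hi

/-- **CubeComplexes**: groups which act freely and cocompactly on `CAT(0)` cube complexes such that all links are flag
homology spheres -/
theorem van_cubical {Γ X : Type} [Group Γ] [MulAction Γ X] (M : SimpleGraph X) (F : Finset X) (h : CubeAction Γ M F)
    {i : ℕ} (hL : ∀ x ∈ F, ∃ n, 2 * i ≠ n ∧ SingerCube.HSphere n (link M x)) : Van i Γ :=
  Van.cube M F h fun x hx => by
    obtain ⟨n, hn, hs⟩ := hL x hx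
    exact van_racg hs hn

/-- **Hierarchies**: groups with a right-angled hierarchy -/
theorem van_hierarchy {n : ℕ} {Γ : Type} [Group Γ] (h : Hierarchy n Γ) {i : ℕ} (hi : 2 * i ≠ n) : Van i Γ := by
  induction h with
  | cox L k j hL hk hkf hj hjf => exact van_cox hL k j hk hkf hj hjf hi
  | supergroup j hj hf _ ih => exact Van.supergroup j hj hf ih
  | tree T F K tree act inv hF hK RV RE _ ih =>
    exact Van.mirror T F ⟨tree, act, inv, hF, ⟨K, hK⟩, RV, RE⟩ ih

theorem treeAction {Γ : Type} [Group Γ] {V : Type} [MulAction Γ V] {T : SimpleGraph V} {F : Finset V}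
    (h : SQ.UH.TreeAction Γ T F) : TreeAction Γ T F := ⟨h.tree, h.act, h.inv, h.vert, h.edge, h.finV, h.finE⟩

/-- **UpperHalf** -/
theorem van_up {n : ℕ} {Γ : Type} [Group Γ] (h : SQ.UH.Up n Γ) {i : ℕ} (hi : n < 2 * i) : Van i Γ := by
  induction h generalizing i with
  | sub K R j hn hK hj hjf => exact Van.supergroup j hj hjf (Van.sub K R hn (of_cls hK) hi)
  | dim R h0 => exact Van.dim R (h0 i hi)
  | supergroup j hj hf _ ih => exact Van.supergroup j hj hf (ih hi)
  | subgroup j R hj hf _ ih => exact Van.subgroup j R hj hf (ih hi)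
  | mono hmn _ ih => exact ih (lt_of_le_of_lt hmn hi)
  | mirror T F hT _ ih => exact Van.mirror T F (treeAction hT) fun x hx => ih x hx hi
  | tree T F hT hm _ _ ihV ihE =>
    exact Van.tree T F (treeAction hT) (fun x hx => ihV x hx hi) fun j hj v w hvw => ihE v w hvw (by omega)
  | vertex T F v hT _ _ ihG ihE =>
    exact Van.vertex T F v (treeAction hT) (ihG hi) fun v w hvw => ihE v w hvw hi

end SQ.V
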